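import Mathlib

/-!
# Every `[n]` has a partition into parts of size at most three whose sums are powers of three
-/

namespace Pool.Agent.Results.MP_b44c8b_co.ThreeGood

/-- Sets of integers that split into triples of distinct integers with sum zero. -/
inductive ZS : Set ℤ → Prop
  | empty : ZS ∅
  | add (A : Set ℤ) (a b c : ℤ) : ZS A → a + b + c = 0 → a ≠ b → a ≠ c → b ≠ c →
      a ∉ A → b ∉ A → c ∉ A → ZS {x | x = a ∨ x = b ∨ x = c ∨ x ∈ A}

theorem ZS.congr {A B : Set ℤ} (h : ZS A) (hAB : ∀ x, x ∈ A ↔ x ∈ B) : ZS B := by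
  have : A = B := Set.ext hAB
  rwa [← this]

theorem ZS.union {A B : Set ℤ} (hA : ZS A) (hB : ZS B) (hd : ∀ x, x ∈ A → x ∉ B) :
    ZS {x | x ∈ A ∨ x ∈ B} := by
  induction hA with
  | empty => exact hB.congr (fun x => by simp)
  | add A a b c _ h0 h1 h2 h3 h4 h5 h6 ih =>
    have hd' : ∀ x, x ∈ A → x ∉ B := fun x hx => hd x (by simp [hx])
    have hab : a ∉ B := hd a (by simp)
    have hbb : b ∉ B := hd b (by simp)
    have hcb : c ∉ B := hd c (by simp)
    refine (ZS.add _ a b c (ih hd') h0 h1 h2 h3 ?_ ?_ ?_).congr ?_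
    · simp [h4, hab]
    · simp [h5, hbb]
    · simp [h6, hcb]
    · intro x
      simp only [Set.mem_ofPred_eq]
      tauto

theorem ZS.neg {A : Set ℤ} (hA : ZS A) : ZS {x | -x ∈ A} := by
  induction hA with
  | empty => exact ZS.empty.congr (fun x => by simp)
  | add A a b c _ h0 h1 h2 h3 h4 h5 h6 ih =>
    refine (ZS.add _ (-a) (-b) (-c) ih (by omega) (by omega) (by omega) (by omega) ?_ ?_ ?_).congr ?_
    · simpa using h4
    · simpa using h5
    · simpa using h6
    · intro x
      simp only [Set.mem_ofPred_eq]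
      constructor
      · rintro (h | h | h | h)
        · left; omega
        · right; left; omega
        · right; right; left; omega
        · right; right; right; exact h
      · rintro (h | h | h | h)
        · left; omega
        · right; left; omega
        · right; right; left; omega
        · right; right; right; exact h

/-- A family of triples with all members distinct. -/
theorem ZS.fam (n : ℕ) (a b c : ℤ → ℤ) (hs : ∀ i, a i + b i + c i = 0)
    (h : ∀ i j : ℤ, 1 ≤ i → i ≤ n → 1 ≤ j → j ≤ n →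
      (a i = a j → i = j) ∧ (b i = b j → i = j) ∧ (c i = c j → i = j) ∧
      a i ≠ b j ∧ a i ≠ c j ∧ b i ≠ c j) :
    ZS {x | ∃ i : ℤ, 1 ≤ i ∧ i ≤ n ∧ (x = a i ∨ x = b i ∨ x = c i)} := by
  induction n with
  | zero => exact ZS.empty.congr (fun x => by
      simp only [Set.mem_empty_iff_false, Set.mem_ofPred_eq, false_iff]
      rintro ⟨i, h1, h2, _⟩
      push_cast at h2
      omega)
  | succ n ih =>
    have ih' := ih (fun i j h1 h2 h3 h4 => h i j h1 (by push_cast; omega) h3 (by push_cast; omega))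
    set m : ℤ := (n : ℤ) + 1 with hm
    have hm1 : 1 ≤ m := by omega
    have hm2 : m ≤ ((n + 1 : ℕ) : ℤ) := by push_cast; omega
    have hself := h m m hm1 hm2 hm1 hm2
    refine (ZS.add _ (a m) (b m) (c m) ih' (hs m) hself.2.2.2.1 hself.2.2.2.2.1
      hself.2.2.2.2.2 ?_ ?_ ?_).congr ?_
    · rintro ⟨i, h1, h2, h3⟩
      have q := h m i hm1 hm2 h1 (by push_cast; omega)
      rcases h3 with h3 | h3 | h3
      · have := q.1 h3; omega
      · exact q.2.2.2.1 h3
      · exact q.2.2.2.2.1 h3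
    · rintro ⟨i, h1, h2, h3⟩
      have q := h m i hm1 hm2 h1 (by push_cast; omega)
      have q' := h i m h1 (by push_cast; omega) hm1 hm2
      rcases h3 with h3 | h3 | h3
      · exact q'.2.2.2.1 h3.symm
      · have := q.2.1 h3; omega
      · exact q.2.2.2.2.2 h3
    · rintro ⟨i, h1, h2, h3⟩
      have q := h m i hm1 hm2 h1 (by push_cast; omega)
      have q' := h i m h1 (by push_cast; omega) hm1 hm2
      rcases h3 with h3 | h3 | h3
      · exact q'.2.2.2.2.1 h3.symm
      · exact q'.2.2.2.2.2 h3.symm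
      · have := q.2.2.1 h3; omega
    · intro x
      simp only [Set.mem_ofPred_eq]
      constructor
      · rintro (h1 | h1 | h1 | ⟨i, h1, h2, h3⟩)
        · exact ⟨m, hm1, hm2, Or.inl h1⟩
        · exact ⟨m, hm1, hm2, Or.inr (Or.inl h1)⟩
        · exact ⟨m, hm1, hm2, Or.inr (Or.inr h1)⟩
        · exact ⟨i, h1, by push_cast; omega, h3⟩
      · rintro ⟨i, h1, h2, h3⟩
        by_cases hi : i = m
        · subst hi
          rcases h3 with h3 | h3 | h3
          · exact Or.inl h3
          · exact Or.inr (Or.inl h3)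
          · exact Or.inr (Or.inr (Or.inl h3))
        · exact Or.inr (Or.inr (Or.inr ⟨i, h1, by push_cast at h2; omega, h3⟩))

/-- all nonzero integers of absolute value at most `3k` -/
theorem zs_D0 (k : ℕ) : ZS {x : ℤ | (1 ≤ x ∧ x ≤ 3 * k) ∨ (1 ≤ -x ∧ -x ≤ 3 * k)} := by
  have F1 := ZS.fam k (fun i => -(k + i)) (fun i => k + 2 * i) (fun i => -i)
    (fun i => by ring) (fun i j h1 h2 h3 h4 => by
      refine ⟨?_, ?_, ?_, ?_, ?_, ?_⟩ <;> intros <;> omega)
  have F2 := ZS.fam k (fun i => -(2 * k + i)) (fun i => k + 2 * i - 1) (fun i => k + 1 - i)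
    (fun i => by ring) (fun i j h1 h2 h3 h4 => by
      refine ⟨?_, ?_, ?_, ?_, ?_, ?_⟩ <;> intros <;> omega)
  refine (ZS.union F1 F2 ?_).congr ?_
  · rintro x ⟨i, h1, h2, h3⟩ ⟨j, h4, h5, h6⟩
    omega
  · intro x
    simp only [Set.mem_ofPred_eq]
    constructor
    · rintro (⟨i, h1, h2, h3⟩ | ⟨i, h1, h2, h3⟩) <;> omega
    · intro h
      by_cases c1 : 1 ≤ x ∧ x ≤ k
      · exact Or.inr ⟨k + 1 - x, by omega, by omega, by omega⟩
      by_cases c2 : 1 ≤ x
      · rcases Int.even_or_odd' (x - k) with ⟨m, hm | hm⟩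
        · exact Or.inl ⟨m, by omega, by omega, by omega⟩
        · exact Or.inr ⟨m + 1, by omega, by omega, by omega⟩
      by_cases c3 : -x ≤ k
      · exact Or.inl ⟨-x, by omega, by omega, by omega⟩
      by_cases c4 : -x ≤ 2 * k
      · exact Or.inl ⟨-x - k, by omega, by omega, by omega⟩
      · exact Or.inr ⟨-x - 2 * k, by omega, by omega, by omega⟩

/-- all integers of absolute value at most `3k+1` -/
theorem zs_D1 (k : ℕ) : ZS {x : ℤ | -(3 * k + 1) ≤ x ∧ x ≤ 3 * k + 1} := by
  have F1 := ZS.fam k (fun i => -(k + 1 + i)) (fun i => k + 1 + 2 * i) (fun i => -i)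
    (fun i => by ring) (fun i j h1 h2 h3 h4 => by
      refine ⟨?_, ?_, ?_, ?_, ?_, ?_⟩ <;> intros <;> omega)
  have F2 := ZS.fam k (fun i => -(2 * k + 1 + i)) (fun i => k + 2 * i) (fun i => k + 1 - i)
    (fun i => by ring) (fun i j h1 h2 h3 h4 => by
      refine ⟨?_, ?_, ?_, ?_, ?_, ?_⟩ <;> intros <;> omega)
  have F3 := ZS.add _ (-(k + 1 : ℤ)) (k + 1 : ℤ) 0 ZS.empty (by ring) (by omega) (by omega)
    (by omega) (by simp) (by simp) (by simp)
  refine (ZS.union (ZS.union F1 F2 ?_) F3 ?_).congr ?_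
  · rintro x ⟨i, h1, h2, h3⟩ ⟨j, h4, h5, h6⟩
    omega
  · rintro x (⟨i, h1, h2, h3⟩ | ⟨i, h1, h2, h3⟩) h
    · simp only [Set.mem_ofPred_eq, Set.mem_empty_iff_false, or_false] at h
      omega
    · simp only [Set.mem_ofPred_eq, Set.mem_empty_iff_false, or_false] at h
      omega
  · intro x
    simp only [Set.mem_ofPred_eq, Set.mem_empty_iff_false, or_false]
    constructor
    · rintro ((⟨i, h1, h2, h3⟩ | ⟨i, h1, h2, h3⟩) | h3) <;> omega
    · intro h
      by_cases c0 : x = -(k + 1 : ℤ) ∨ x = (k + 1 : ℤ) ∨ x = 0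
      · exact Or.inr c0
      refine Or.inl ?_
      by_cases c1 : 1 ≤ x ∧ x ≤ k
      · exact Or.inr ⟨k + 1 - x, by omega, by omega, by omega⟩
      by_cases c2 : 1 ≤ x
      · rcases Int.even_or_odd' (x - k) with ⟨m, hm | hm⟩
        · exact Or.inr ⟨m, by omega, by omega, by omega⟩
        · exact Or.inl ⟨m, by omega, by omega, by omega⟩
      by_cases c3 : -x ≤ k
      · exact Or.inl ⟨-x, by omega, by omega, by omega⟩
      by_cases c4 : -x ≤ 2 * k + 1
      · exact Or.inl ⟨-x - k - 1, by omega, by omega, by omega⟩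
      · exact Or.inr ⟨-x - 2 * k - 1, by omega, by omega, by omega⟩

/-- first lemma with holes -/
theorem zs_L1 (k e : ℤ) (h0 : 0 ≤ e) (hek : e ≤ k) :
    ZS {x : ℤ | (1 ≤ x ∧ x ≤ 3 * k + 1 ∧ x ≠ k + 1 + 2 * e) ∨
      (1 ≤ -x ∧ -x ≤ 3 * k + 2 ∧ -x ≠ 2 * k + e + 1 ∧ -x ≠ 2 * k + e + 2)} := by
  obtain ⟨e, rfl⟩ := Int.eq_ofNat_of_zero_le h0
  obtain ⟨m, hm⟩ := Int.eq_ofNat_of_zero_le (show 0 ≤ k - (e : ℤ) by omega)
  obtain ⟨k, rfl⟩ := Int.eq_ofNat_of_zero_le (show 0 ≤ k by omega)
  have F1 := ZS.fam k (fun i => -(k + i)) (fun i => k + 2 * i) (fun i => -i)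
    (fun i => by ring) (fun i j h1 h2 h3 h4 => by
      refine ⟨?_, ?_, ?_, ?_, ?_, ?_⟩ <;> intros <;> omega)
  have F2 := ZS.fam m (fun i => -(3 * k + 3 - i)) (fun i => 3 * k + 3 - 2 * i) (fun i => i)
    (fun i => by ring) (fun i j h1 h2 h3 h4 => by
      refine ⟨?_, ?_, ?_, ?_, ?_, ?_⟩ <;> intros <;> omega)
  have F3 := ZS.fam e (fun i => -(3 * k + 1 - (m + i))) (fun i => 3 * k + 1 - 2 * (m + i))
    (fun i => m + i)
    (fun i => by ring) (fun i j h1 h2 h3 h4 => by
      refine ⟨?_, ?_, ?_, ?_, ?_, ?_⟩ <;> intros <;> omega)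
  refine (ZS.union (ZS.union F1 F2 ?_) F3 ?_).congr ?_
  · rintro x ⟨i, h1, h2, h3⟩ ⟨j, h4, h5, h6⟩
    omega
  · rintro x (⟨i, h1, h2, h3⟩ | ⟨i, h1, h2, h3⟩) ⟨j, h4, h5, h6⟩
    · omega
    · omega
  · intro x
    simp only [Set.mem_ofPred_eq]
    constructor
    · rintro ((⟨i, h1, h2, h3⟩ | ⟨i, h1, h2, h3⟩) | ⟨i, h1, h2, h3⟩) <;> omega
    · intro h
      by_cases c1 : 1 ≤ x ∧ x ≤ m
      · exact Or.inl (Or.inr ⟨x, by omega, by omega, by omega⟩)
      by_cases c1' : 1 ≤ x ∧ x ≤ k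
      · exact Or.inr ⟨x - m, by omega, by omega, by omega⟩
      by_cases c2 : 1 ≤ x
      · rcases Int.even_or_odd' (x - k) with ⟨l, hl | hl⟩
        · exact Or.inl (Or.inl ⟨l, by omega, by omega, by omega⟩)
        · by_cases c5 : k + 3 + 2 * e ≤ x
          · exact Or.inl (Or.inr ⟨k + 1 - l, by omega, by omega, by omega⟩)
          · exact Or.inr ⟨k - l - m, by omega, by omega, by omega⟩
      by_cases c3 : -x ≤ k
      · exact Or.inl (Or.inl ⟨-x, by omega, by omega, by omega⟩)
      by_cases c4 : -x ≤ 2 * k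
      · exact Or.inl (Or.inl ⟨-x - k, by omega, by omega, by omega⟩)
      by_cases c5 : -x ≤ 2 * k + e
      · exact Or.inr ⟨3 * k + 1 + x - m, by omega, by omega, by omega⟩
      · exact Or.inl (Or.inr ⟨3 * k + 3 + x, by omega, by omega, by omega⟩)

/-- second lemma with holes -/
theorem zs_L2 (k e : ℤ) (h0 : 0 ≤ e) (hek : e ≤ k) :
    ZS {x : ℤ | (1 ≤ x ∧ x ≤ 3 * k + 2 ∧ x ≠ k + 1 ∧ x ≠ 3 * k + 2 - 2 * e) ∨
      (1 ≤ -x ∧ -x ≤ 3 * k + 2 ∧ -x ≠ 2 * k - e + 1 ∧ -x ≠ 2 * k - e + 2)} := by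
  obtain ⟨e, rfl⟩ := Int.eq_ofNat_of_zero_le h0
  obtain ⟨m, hm⟩ := Int.eq_ofNat_of_zero_le (show 0 ≤ k - (e : ℤ) by omega)
  obtain ⟨k, rfl⟩ := Int.eq_ofNat_of_zero_le (show 0 ≤ k by omega)
  have F1 := ZS.fam k (fun i => -(3 * k + 3 - i)) (fun i => 3 * k + 3 - 2 * i) (fun i => i)
    (fun i => by ring) (fun i j h1 h2 h3 h4 => by
      refine ⟨?_, ?_, ?_, ?_, ?_, ?_⟩ <;> intros <;> omega)
  have F2 := ZS.fam m (fun i => -(k + i)) (fun i => k + 2 * i) (fun i => -i)
    (fun i => by ring) (fun i j h1 h2 h3 h4 => by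
      refine ⟨?_, ?_, ?_, ?_, ?_, ?_⟩ <;> intros <;> omega)
  have F3 := ZS.fam e (fun i => -(k + 2 + (m + i))) (fun i => k + 2 + 2 * (m + i))
    (fun i => -(m + i))
    (fun i => by ring) (fun i j h1 h2 h3 h4 => by
      refine ⟨?_, ?_, ?_, ?_, ?_, ?_⟩ <;> intros <;> omega)
  refine (ZS.union (ZS.union F1 F2 ?_) F3 ?_).congr ?_
  · rintro x ⟨i, h1, h2, h3⟩ ⟨j, h4, h5, h6⟩
    omega
  · rintro x (⟨i, h1, h2, h3⟩ | ⟨i, h1, h2, h3⟩) ⟨j, h4, h5, h6⟩
    · omega
    · omega
  · intro x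
    simp only [Set.mem_ofPred_eq]
    constructor
    · rintro ((⟨i, h1, h2, h3⟩ | ⟨i, h1, h2, h3⟩) | ⟨i, h1, h2, h3⟩) <;> omega
    · intro h
      by_cases c1 : 1 ≤ x ∧ x ≤ k
      · exact Or.inl (Or.inl ⟨x, by omega, by omega, by omega⟩)
      by_cases c2 : 1 ≤ x
      · rcases Int.even_or_odd' (x - k) with ⟨l, hl | hl⟩
        · by_cases c5 : x ≤ 3 * k - 2 * e
          · exact Or.inl (Or.inr ⟨l, by omega, by omega, by omega⟩)
          · exact Or.inr ⟨l - 1 - m, by omega, by omega, by omega⟩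
        · exact Or.inl (Or.inl ⟨k + 1 - l, by omega, by omega, by omega⟩)
      by_cases c3 : -x ≤ m
      · exact Or.inl (Or.inr ⟨-x, by omega, by omega, by omega⟩)
      by_cases c3' : -x ≤ k
      · exact Or.inr ⟨-x - m, by omega, by omega, by omega⟩
      by_cases c4 : -x ≤ 2 * k - e
      · exact Or.inl (Or.inr ⟨-x - k, by omega, by omega, by omega⟩)
      by_cases c5 : -x ≤ 2 * k + 2
      · exact Or.inr ⟨-x - k - 2 - m, by omega, by omega, by omega⟩
      · exact Or.inl (Or.inl ⟨3 * k + 3 + x, by omega, by omega, by omega⟩)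

/-- positives up to `r` without `x, y`, negatives down to `-r` without `-u, -v` -/
def ZH (r x y u v : ℤ) : Prop :=
  ZS {z : ℤ | (1 ≤ z ∧ z ≤ r ∧ z ≠ x ∧ z ≠ y) ∨ (1 ≤ -z ∧ -z ≤ r ∧ -z ≠ u ∧ -z ≠ v)}

theorem ZH.neg {r x y u v : ℤ} (h : ZH r x y u v) : ZH r u v x y :=
  (ZS.neg h).congr (fun z => by
    simp only [Set.mem_ofPred_eq]
    omega)

theorem holes (k r w h : ℤ) (hk : 0 ≤ k) (hr : r = 3 * k + 2) (hw : w = 2 * h + 1)
    (h1 : r < w) (h2 : w < 2 * r) :
    ∃ u v : ℤ, u + v = w ∧ 1 ≤ u ∧ u < v ∧ v ≤ r ∧ (4 * k + 3 ≤ w → v = r) ∧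
      ZH r h (h + 1) u v := by
  by_cases hc : 4 * k + 3 ≤ w
  · refine ⟨w - r, r, by omega, by omega, by omega, le_refl _, fun _ => rfl, ?_⟩
    refine (ZS.neg (zs_L1 k (h - 2 * k - 1) (by omega) (by omega))).congr (fun z => ?_)
    simp only [Set.mem_ofPred_eq]
    omega
  · refine ⟨k + 1, w - k - 1, by omega, by omega, by omega, by omega, fun h => absurd h hc, ?_⟩
    refine (ZS.neg (zs_L2 k (2 * k + 1 - h) (by omega) (by omega))).congr (fun z => ?_)
    simp only [Set.mem_ofPred_eq]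
    omega

/-! ## Partitions into good sets -/

/-- powers of three -/
def P3 (T : ℤ) : Prop := ∃ t : ℕ, T = 3 ^ t

/-- nonempty sets of at most three integers whose sum is a power of three -/
def Good (S : Finset ℤ) : Prop := S.Nonempty ∧ S.card ≤ 3 ∧ P3 (∑ x ∈ S, x)

/-- Sets of integers that split into finitely many good sets. -/
inductive PG : Set ℤ → Prop
  | empty : PG ∅
  | add (A : Set ℤ) (S : Finset ℤ) : PG A → Good S → (∀ x ∈ S, x ∉ A) →
      PG {x | x ∈ S ∨ x ∈ A}

theorem PG.congr {A B : Set ℤ} (h : PG A) (hAB : ∀ x, x ∈ A ↔ x ∈ B) : PG B := by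
  have : A = B := Set.ext hAB
  rwa [← this]

theorem PG.union {A B : Set ℤ} (hA : PG A) (hB : PG B) (hd : ∀ x, x ∈ A → x ∉ B) :
    PG {x | x ∈ A ∨ x ∈ B} := by
  induction hA with
  | empty => exact hB.congr (fun x => by simp)
  | add A S _ hS h1 ih =>
    have hd' : ∀ x, x ∈ A → x ∉ B := fun x hx => hd x (by simp [hx])
    have hSB : ∀ x ∈ S, x ∉ B := fun x hx => hd x (by simp [hx])
    refine (PG.add _ S (ih hd') hS ?_).congr ?_
    · intro x hx
      simp only [Set.mem_ofPred_eq, not_or]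
      exact ⟨h1 x hx, hSB x hx⟩
    · intro x
      simp only [Set.mem_ofPred_eq]
      tauto

theorem PG.single {T : ℤ} (hT : P3 T) : PG {x | x = T} :=
  (PG.add _ {T} PG.empty ⟨by simp, by simp, by simpa using hT⟩ (by simp)).congr
    (fun x => by simp)

theorem good_pair {a b : ℤ} (hab : a ≠ b) (hT : P3 (a + b)) : Good {a, b} :=
  ⟨by simp, by rw [Finset.card_pair hab]; omega, by rwa [Finset.sum_pair hab]⟩

theorem good_triple {a b c : ℤ} (hab : a ≠ b) (hac : a ≠ c) (hbc : b ≠ c)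
    (hT : P3 (a + b + c)) : Good {a, b, c} := by
  refine ⟨by simp, ?_, ?_⟩
  · exact Finset.card_le_three
  · have : ∑ x ∈ ({a, b, c} : Finset ℤ), x = a + b + c := by
      rw [Finset.sum_insert (by simp [hab, hac]), Finset.sum_pair hbc]; ring
    rwa [this]

theorem PG.triple {a b c : ℤ} (hab : a ≠ b) (hac : a ≠ c) (hbc : b ≠ c)
    (hT : P3 (a + b + c)) : PG {x | x = a ∨ x = b ∨ x = c} :=
  (PG.add _ {a, b, c} PG.empty (good_triple hab hac hbc hT) (by simp)).congr
    (fun x => by simp)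

theorem PG.of_ZS {T : ℤ} (hT : P3 T) {A : Set ℤ} (hA : ZS A) : PG {z | z - T ∈ A} := by
  induction hA with
  | empty => exact PG.empty.congr (fun x => by simp)
  | add A a b c _ h0 h1 h2 h3 h4 h5 h6 ih =>
    have hg : Good {T + a, T + b, T + c} := by
      refine good_triple (by omega) (by omega) (by omega) ?_
      obtain ⟨t, ht⟩ := hT
      refine ⟨t + 1, ?_⟩
      have : T + a + (T + b) + (T + c) = 3 * T := by omega
      rw [this, ht, pow_succ]; ring
    refine (PG.add _ _ ih hg ?_).congr ?_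
    · intro x hx
      simp only [Finset.mem_insert, Finset.mem_singleton] at hx
      simp only [Set.mem_ofPred_eq]
      rcases hx with rfl | rfl | rfl
      · simpa using h4
      · simpa using h5
      · simpa using h6
    · intro x
      simp only [Finset.mem_insert, Finset.mem_singleton, Set.mem_ofPred_eq]
      constructor
      · rintro ((h | h | h) | h)
        · left; omega
        · right; left; omega
        · right; right; left; omega
        · right; right; right; exact h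
      · rintro (h | h | h | h)
        · left; left; omega
        · left; right; left; omega
        · left; right; right; omega
        · right; exact h

theorem PG.pairs {T : ℤ} (hT : P3 T) (q : ℤ → Prop) (m : ℕ) (hm : 2 * (m : ℤ) < T) :
    PG {z | (1 ≤ z ∧ z ≤ m ∧ q z) ∨ (1 ≤ T - z ∧ T - z ≤ m ∧ q (T - z))} := by
  induction m with
  | zero => exact PG.empty.congr (fun x => by
      simp only [Set.mem_empty_iff_false, Set.mem_ofPred_eq, false_iff]
      push_cast
      omega)
  | succ m ih =>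
    have ih' := ih (by push_cast at hm; omega)
    push_cast at hm ⊢
    by_cases hq : q (m + 1)
    · have hg : Good {(m : ℤ) + 1, T - (m + 1)} := by
        refine good_pair (by omega) ?_
        have : (m : ℤ) + 1 + (T - (m + 1)) = T := by ring
        rwa [this]
      refine (PG.add _ _ ih' hg ?_).congr ?_
      · intro x hx
        simp only [Finset.mem_insert, Finset.mem_singleton] at hx
        simp only [Set.mem_ofPred_eq]
        omega
      · intro x
        simp only [Finset.mem_insert, Finset.mem_singleton, Set.mem_ofPred_eq]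
        constructor
        · rintro ((h | h) | (h | h))
          · left; subst h; exact ⟨by omega, by omega, hq⟩
          · right
            have e : T - x = m + 1 := by omega
            rw [e]; exact ⟨by omega, by omega, hq⟩
          · left; exact ⟨h.1, by omega, h.2.2⟩
          · right; exact ⟨h.1, by omega, h.2.2⟩
        · rintro (h | h)
          · by_cases e : x = m + 1
            · left; left; exact e
            · right; left; exact ⟨h.1, by omega, h.2.2⟩
          · by_cases e : T - x = m + 1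
            · left; right; omega
            · right; right; exact ⟨h.1, by omega, h.2.2⟩
    · refine ih'.congr ?_
      intro x
      simp only [Set.mem_ofPred_eq]
      constructor
      · rintro (h | h)
        · left; exact ⟨h.1, by omega, h.2.2⟩
        · right; exact ⟨h.1, by omega, h.2.2⟩
      · rintro (h | h)
        · left
          refine ⟨h.1, ?_, h.2.2⟩
          by_contra hc
          have e : x = m + 1 := by omega
          exact hq (e ▸ h.2.2)
        · right
          refine ⟨h.1, ?_, h.2.2⟩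
          by_contra hc
          have e : T - x = m + 1 := by omega
          exact hq (e ▸ h.2.2)

theorem assembleAB (T r w x y u v : ℤ) (hT : P3 T) (hTo : ∃ h, T = 2 * h + 1) (h2r : 2 * r < T)
    (hw : 2 * w < T) (hrw : r < w) (hx : 1 ≤ x) (hxy : x < y) (hy : y ≤ r) (hu : 1 ≤ u)
    (huv : u < v) (hv : v ≤ r) (Z : ZH r x y u v)
    (L : PG {z | (1 ≤ z ∧ z ≤ r ∧ z ≠ u ∧ z ≠ v) ∨ z = w}) :
    PG {z | 1 ≤ z ∧ z ≤ T + r ∧ z ≠ T + x ∧ z ≠ T + y ∧ z ≠ T - w} := by
  obtain ⟨h, hh⟩ := hTo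
  obtain ⟨m, hm⟩ := Int.eq_ofNat_of_zero_le (show 0 ≤ h by omega)
  have A1 := PG.of_ZS hT Z
  have A2 := PG.single hT
  have A3 := PG.pairs hT (fun z => z = u ∨ z = v ∨ (r < z ∧ z ≠ w)) m (by omega)
  refine (PG.union (PG.union A1 A2 ?_) (PG.union L A3 ?_) ?_).congr ?_
  · intro z hz
    simp only [Set.mem_ofPred_eq] at hz ⊢
    omega
  · intro z hz
    simp only [Set.mem_ofPred_eq] at hz ⊢
    omega
  · intro z hz
    simp only [Set.mem_ofPred_eq] at hz ⊢
    omega
  · intro z
    simp only [Set.mem_ofPred_eq]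
    constructor
    · intro hz
      omega
    · intro hz
      omega

theorem assembleC (T r w x y u v : ℤ) (hT : P3 T) (hTo : ∃ h, T = 2 * h + 1) (h2r : 2 * r < T)
    (hw : T < 2 * w) (hwT : w < T) (hrw : r < w) (hx : 1 ≤ x) (hxy : x < y) (hy : y ≤ r)
    (hu : 1 ≤ u) (huv : u < v) (hv : v ≤ r) (h1 : T - w ≤ r) (h2 : T - w ≠ u) (h3 : T - w ≠ v)
    (Z : ZH r x y u v)
    (L : PG {z | 1 ≤ z ∧ z ≤ r ∧ z ≠ u ∧ z ≠ v ∧ z ≠ T - w}) :
    PG {z | 1 ≤ z ∧ z ≤ T + r ∧ z ≠ T + x ∧ z ≠ T + y ∧ z ≠ T - w} := by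
  obtain ⟨h, hh⟩ := hTo
  obtain ⟨m, hm⟩ := Int.eq_ofNat_of_zero_le (show 0 ≤ h by omega)
  have A1 := PG.of_ZS hT Z
  have A2 := PG.single hT
  have A3 := PG.pairs hT (fun z => z = u ∨ z = v ∨ r < z) m (by omega)
  refine (PG.union (PG.union A1 A2 ?_) (PG.union L A3 ?_) ?_).congr ?_
  · intro z hz
    simp only [Set.mem_ofPred_eq] at hz ⊢
    omega
  · intro z hz
    simp only [Set.mem_ofPred_eq] at hz ⊢
    omega
  · intro z hz
    simp only [Set.mem_ofPred_eq] at hz ⊢
    omega
  · intro z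
    simp only [Set.mem_ofPred_eq]
    constructor
    · intro hz
      omega
    · intro hz
      omega

/-- There is a triple with sum `3T` of a special shape such that the rest of `[T+r]` splits. -/
def Special (T r : ℤ) : Prop :=
  ∃ x y w h : ℤ, 1 ≤ x ∧ x < y ∧ y ≤ r ∧ x + y = w ∧ w < T ∧ w = 2 * h + 1 ∧
    (y = x + 1 ∨ (y = r ∧ 4 * r + 1 ≤ 3 * w)) ∧
    PG {z | 1 ≤ z ∧ z ≤ T + r ∧ z ≠ T + x ∧ z ≠ T + y ∧ z ≠ T - w}

theorem caseA (T s r k : ℤ) (hT : P3 T) (hs : P3 s) (hTo : ∃ h, T = 2 * h + 1)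
    (hso : ∃ h, s = 2 * h + 1) (hk : 0 ≤ k) (hr : r = 3 * k + 2) (h2r : 2 * r < T)
    (h1 : r < s) (h2 : s < 2 * r) (h3 : 3 * s ≤ T)
    (IH : PG {z | 1 ≤ z ∧ z ≤ s - r - 1}) : Special T r := by
  obtain ⟨h, hh⟩ := hso
  obtain ⟨u, v, e1, e2, e3, e4, e5, Z⟩ := holes k r s h hk hr hh h1 h2
  obtain ⟨m, hm⟩ := Int.eq_ofNat_of_zero_le (show 0 ≤ h by omega)
  refine ⟨h, h + 1, s, h, by omega, by omega, by omega, by omega, by omega, hh, Or.inl rfl, ?_⟩
  refine assembleAB T r s h (h + 1) u v hT hTo h2r (by omega) h1 (by omega) (by omega)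
    (by omega) e2 e3 e4 Z ?_
  have A2 := PG.single hs
  have A3 := PG.pairs hs (fun z => s - r ≤ z ∧ z ≠ u) m (by omega)
  refine (PG.union (PG.union IH A2 ?_) A3 ?_).congr ?_
  · intro z hz
    simp only [Set.mem_ofPred_eq] at hz ⊢
    omega
  · intro z hz
    simp only [Set.mem_ofPred_eq] at hz ⊢
    omega
  · intro z
    simp only [Set.mem_ofPred_eq]
    constructor
    · intro hz
      omega
    · intro hz
      omega

theorem caseB (T T' r k k' : ℤ) (hT : P3 T) (hT' : P3 T') (h3T' : P3 (3 * T'))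
    (hTo : ∃ h, T = 2 * h + 1) (hTo' : ∃ h, T' = 2 * h + 1) (hk' : 0 ≤ k')
    (hr : r = 3 * k + 2) (hr' : r = T' + (3 * k' + 2)) (h2r : 2 * r < 3 * T')
    (h3 : 9 * T' ≤ T) (IH : PG {z | 1 ≤ z ∧ z ≤ 3 * k' + 2}) : Special T r := by
  obtain ⟨Z⟩ : Nonempty (ZH r (2 * k + 1) (2 * k + 2) (k + 1) r) := by
    obtain ⟨u, v, e1, e2, e3, e4, e5, Z⟩ :=
      holes k r (4 * k + 3) (2 * k + 1) (by omega) hr (by ring) (by omega) (by omega)
    have hv := e5 (le_refl _)
    have hu : u = k + 1 := by omega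
    have h2 : 2 * k + 1 + 1 = 2 * k + 2 := by ring
    rw [hu, hv, h2] at Z
    exact ⟨Z⟩
  obtain ⟨h, hh⟩ := hTo'
  obtain ⟨m, hm⟩ := Int.eq_ofNat_of_zero_le (show 0 ≤ h by omega)
  obtain ⟨k'', rfl⟩ := Int.eq_ofNat_of_zero_le hk'
  refine ⟨2 * k + 1, 2 * k + 2, 4 * k + 3, 2 * k + 1, by omega, by omega, by omega, by omega,
    by omega, by omega, Or.inl (by ring), ?_⟩
  refine assembleAB T r (4 * k + 3) (2 * k + 1) (2 * k + 2) (k + 1) r hT hTo (by omega)
    (by omega) (by omega) (by omega) (by omega)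
    (by omega) (by omega) (by omega) le_rfl Z ?_
  have A1 := PG.of_ZS hT' (zs_D1 k'')
  have A2 := PG.triple (a := 4 * k + 3) (b := T' - (k + 1)) (c := T' - (3 * k'' + 2))
    (by omega) (by omega) (by omega)
    (by
      have : 4 * k + 3 + (T' - (k + 1)) + (T' - (3 * k'' + 2)) = 3 * T' := by omega
      rw [this]; exact h3T')
  have A3 := PG.pairs hT' (fun z => 3 * k'' + 2 < z ∧ z ≠ k + 1 ∧ z ≠ T' - (k + 1)) m (by omega)
  refine (PG.union (PG.union IH A2 ?_) (PG.union A1 A3 ?_) ?_).congr ?_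
  · intro z hz
    simp only [Set.mem_ofPred_eq] at hz ⊢
    omega
  · intro z hz
    simp only [Set.mem_ofPred_eq] at hz ⊢
    omega
  · intro z hz
    simp only [Set.mem_ofPred_eq] at hz ⊢
    omega
  · intro z
    simp only [Set.mem_ofPred_eq]
    constructor
    · intro hz
      omega
    · intro hz
      omega

theorem caseC (T' r k r' : ℤ) (hT : P3 (3 * T'))
    (hTo : ∃ h, 3 * T' = 2 * h + 1) (hk : 0 ≤ k)
    (hr : r = 3 * k + 2) (hr' : r = T' + r') (h2r : 2 * r < 3 * T')
    (IH : Special T' r') : Special (3 * T') r := by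
  obtain ⟨x, y, w', h', a1, a2, a3, a4, a5, a6, a7, P⟩ := IH
  obtain ⟨j, hj⟩ := hTo
  -- the new sum is `w = 2T' + w' = 2 (T' + h') + 1`
  obtain ⟨u, v, e1, e2, e3, e4, e5, Z⟩ :=
    holes k r (2 * T' + w') (T' + h') hk hr (by omega) (by omega) (by omega)
  have hv := e5 (by omega)
  have L : PG {z | 1 ≤ z ∧ z ≤ r ∧ z ≠ T' + x ∧ z ≠ T' + y ∧ z ≠ 3 * T' - (2 * T' + w')} :=
    P.congr (fun z => by
      simp only [Set.mem_ofPred_eq]
      omega)
  rcases a7 with a7 | a7
  · refine ⟨u, v, 2 * T' + w', T' + h', e2, e3, e4, e1, by omega, by omega,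
      Or.inr ⟨hv, by omega⟩, ?_⟩
    have hx : T' + h' = T' + x := by omega
    have hy : T' + h' + 1 = T' + y := by omega
    rw [hy, hx] at Z
    exact assembleC (3 * T') r (2 * T' + w') u v (T' + x) (T' + y) hT ⟨j, hj⟩ h2r (by omega)
      (by omega) (by omega) e2 e3 e4 (by omega) (by omega) (by omega) (by omega) (by omega)
      (by omega) Z.neg L
  · refine ⟨T' + h', T' + h' + 1, 2 * T' + w', T' + h', by omega, by omega, by omega, by omega,
      by omega, by omega, Or.inl rfl, ?_⟩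
    have hu' : u = T' + x := by omega
    have hv' : v = T' + y := by omega
    rw [hu', hv'] at Z
    exact assembleC (3 * T') r (2 * T' + w') (T' + h') (T' + h' + 1) (T' + x) (T' + y) hT ⟨j, hj⟩
      h2r (by omega)
      (by omega) (by omega) (by omega) (by omega) (by omega) (by omega) (by omega) (by omega)
      (by omega) (by omega) (by omega) Z L

theorem odd3 (t : ℕ) : ∃ h : ℤ, (3 : ℤ) ^ t = 2 * h + 1 := by
  induction t with
  | zero => exact ⟨0, by norm_num⟩
  | succ t ih =>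
    obtain ⟨h, hh⟩ := ih
    exact ⟨3 * h + 1, by rw [pow_succ, hh]; ring⟩

theorem main (n : ℕ) : PG {z : ℤ | 1 ≤ z ∧ z ≤ n} ∧
    ∀ (t : ℕ) (r k : ℤ), (n : ℤ) = 3 ^ t + r → r = 3 * k + 2 → 0 ≤ k → 2 * r < 3 ^ t →
      Special (3 ^ t) r := by
  induction n using Nat.strong_induction_on with
  | _ n ih =>
    have IH : ∀ m : ℤ, m < n → PG {z : ℤ | 1 ≤ z ∧ z ≤ m} := by
      intro m hm
      by_cases h0 : 0 ≤ m
      · obtain ⟨m', rfl⟩ := Int.eq_ofNat_of_zero_le h0
        exact (ih m' (by omega)).1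
      · exact PG.empty.congr (fun z => by
          simp only [Set.mem_empty_iff_false, Set.mem_ofPred_eq, false_iff]
          omega)
    have sp : ∀ (t : ℕ) (r k : ℤ), (n : ℤ) = 3 ^ t + r → r = 3 * k + 2 → 0 ≤ k →
        2 * r < 3 ^ t → Special (3 ^ t) r := by
      intro t r k hn hr hk h2r
      obtain ⟨rn, hrn⟩ := Int.eq_ofNat_of_zero_le (show 0 ≤ r by omega)
      have hr0 : rn ≠ 0 := by omega
      set j := Nat.log 3 rn with hj
      have hj1 : 3 ^ j ≤ rn := Nat.pow_log_le_self 3 hr0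
      have hj2 : rn < 3 ^ (j + 1) := Nat.lt_pow_succ_log_self (by norm_num) rn
      have hj1' : (3 : ℤ) ^ j ≤ r := by rw [hrn]; exact_mod_cast hj1
      have hj2' : r < 3 * (3 : ℤ) ^ j := by
        rw [hrn]
        have : (3 : ℤ) * 3 ^ j = ((3 ^ (j + 1) : ℕ) : ℤ) := by push_cast; ring
        rw [this]; exact_mod_cast hj2
      have hjt : j < t := by
        by_contra hc
        have : (3 : ℤ) ^ t ≤ 3 ^ j := pow_le_pow_right₀ (by norm_num) (by omega)
        omega
      have hT : P3 (3 ^ t) := ⟨t, rfl⟩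
      have hTo := odd3 t
      have hT' : P3 (3 ^ j) := ⟨j, rfl⟩
      have hTo' := odd3 j
      have h3T' : P3 (3 * 3 ^ j) := ⟨j + 1, by rw [pow_succ]; ring⟩
      have h3To' : ∃ h : ℤ, 3 * (3 : ℤ) ^ j = 2 * h + 1 := by
        obtain ⟨h, hh⟩ := odd3 j
        exact ⟨3 * h + 1, by rw [hh]; ring⟩
      by_cases hA : 3 * (3 : ℤ) ^ j < 2 * r
      · have hlt : j + 1 < t := by
          by_contra hc
          have : t = j + 1 := by omega
          subst this
          rw [pow_succ] at h2r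
          omega
        have h9 : 3 * (3 * (3 : ℤ) ^ j) ≤ 3 ^ t := by
          have : (3 : ℤ) ^ (j + 2) ≤ 3 ^ t := pow_le_pow_right₀ (by norm_num) (by omega)
          have e : (3 : ℤ) ^ (j + 2) = 3 * (3 * 3 ^ j) := by ring
          omega
        have hpos : (0 : ℤ) < 3 ^ t := by positivity
        exact caseA (3 ^ t) (3 * 3 ^ j) r k hT h3T' hTo h3To' hk hr h2r hj2' hA h9
          (IH _ (by omega))
      · -- `j ≥ 1`
        obtain ⟨h3, hh3⟩ := h3To'
        have hj0 : j ≠ 0 := by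
          intro h0
          rw [h0] at hA hj2' hj1'
          norm_num at hA hj2' hj1'
          omega
        obtain ⟨i, hi⟩ : ∃ i, j = i + 1 := ⟨j - 1, by omega⟩
        have hji : (3 : ℤ) ^ j = 3 * 3 ^ i := by rw [hi, pow_succ]; ring
        have hk'0 : 0 ≤ k - 3 ^ i := by omega
        by_cases hlt : j + 1 < t
        · have h9 : 9 * (3 : ℤ) ^ j ≤ 3 ^ t := by
            have : (3 : ℤ) ^ (j + 2) ≤ 3 ^ t := pow_le_pow_right₀ (by norm_num) (by omega)
            have e : (3 : ℤ) ^ (j + 2) = 9 * 3 ^ j := by ring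
            omega
          have hpos : (0 : ℤ) < 3 ^ t := by positivity
          exact caseB (3 ^ t) (3 ^ j) r k (k - 3 ^ i) hT hT' h3T' hTo hTo' hk'0 hr (by omega)
            (by omega) h9 (IH _ (by omega))
        · have htj : t = j + 1 := by omega
          have e : (3 : ℤ) ^ t = 3 * 3 ^ j := by rw [htj, pow_succ]; ring
          rw [e] at h2r hT hTo ⊢
          have hpos : (0 : ℤ) < 3 ^ t := by positivity
          have key := (ih rn (by omega)).2 j (r - 3 ^ j) (k - 3 ^ i) (by omega) (by omega) hk'0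
            (by omega)
          exact caseC (3 ^ j) r k (r - 3 ^ j) hT hTo hk hr (by ring) h2r key
    refine ⟨?_, sp⟩
    by_cases hn0 : n = 0
    · subst hn0
      exact PG.empty.congr (fun z => by
          simp only [Set.mem_empty_iff_false, Set.mem_ofPred_eq, false_iff]
          push_cast
          omega)
    set t := Nat.log 3 n with ht
    have ht1 : 3 ^ t ≤ n := Nat.pow_log_le_self 3 hn0
    have ht2 : n < 3 ^ (t + 1) := Nat.lt_pow_succ_log_self (by norm_num) n
    have ht1' : (3 : ℤ) ^ t ≤ n := by exact_mod_cast ht1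
    have ht2' : (n : ℤ) < 3 * (3 : ℤ) ^ t := by
      have : (3 : ℤ) * 3 ^ t = ((3 ^ (t + 1) : ℕ) : ℤ) := by push_cast; ring
      rw [this]; exact_mod_cast ht2
    have hpos : (0 : ℤ) < 3 ^ t := by positivity
    have hT : P3 (3 ^ t) := ⟨t, rfl⟩
    have h3T : P3 (3 * 3 ^ t) := ⟨t + 1, by rw [pow_succ]; ring⟩
    obtain ⟨h, hh⟩ := odd3 t
    by_cases hbig : 3 * (3 : ℤ) ^ t < 2 * n
    · obtain ⟨m, hm⟩ := Int.eq_ofNat_of_zero_le (show 0 ≤ 3 * h + 1 by omega)
      have A3 := PG.pairs h3T (fun z => 3 * 3 ^ t - n ≤ z) m (by omega)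
      refine (PG.union (IH (3 * 3 ^ t - n - 1) (by omega)) A3 ?_).congr ?_
      · intro z hz
        simp only [Set.mem_ofPred_eq] at hz ⊢
        omega
      · intro z
        simp only [Set.mem_ofPred_eq]
        omega
    · obtain ⟨m, hm⟩ := Int.eq_ofNat_of_zero_le (show 0 ≤ h by omega)
      obtain ⟨r, hr⟩ : ∃ r : ℤ, (n : ℤ) = 3 ^ t + r := ⟨n - 3 ^ t, by ring⟩
      obtain ⟨k, hk⟩ : ∃ k : ℕ, r = 3 * k ∨ r = 3 * k + 1 ∨ r = 3 * k + 2 := by
        obtain ⟨k, hk⟩ := Int.eq_ofNat_of_zero_le (show 0 ≤ r / 3 by omega)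
        exact ⟨k, by omega⟩
      have A2 := PG.single hT
      have A3 := PG.pairs hT (fun z => r < z) m (by omega)
      have A4 := IH r (by omega)
      rcases hk with hk | hk | hk
      · have A1 := PG.of_ZS hT (zs_D0 k)
        refine (PG.union (PG.union A1 A2 ?_) (PG.union A4 A3 ?_) ?_).congr ?_
        · intro z hz
          simp only [Set.mem_ofPred_eq] at hz ⊢
          omega
        · intro z hz
          simp only [Set.mem_ofPred_eq] at hz ⊢
          omega
        · intro z hz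
          simp only [Set.mem_ofPred_eq] at hz ⊢
          omega
        · intro z
          simp only [Set.mem_ofPred_eq]
          omega
      · have A1 := PG.of_ZS hT (zs_D1 k)
        refine (PG.union A1 (PG.union A4 A3 ?_) ?_).congr ?_
        · intro z hz
          simp only [Set.mem_ofPred_eq] at hz ⊢
          omega
        · intro z hz
          simp only [Set.mem_ofPred_eq] at hz ⊢
          omega
        · intro z
          simp only [Set.mem_ofPred_eq]
          omega
      · obtain ⟨x, y, w, h', a1, a2, a3, a4, a5, a6, _, P⟩ :=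
          sp t r k hr hk (by omega) (by omega)
        have A5 := PG.triple (a := 3 ^ t + x) (b := 3 ^ t + y) (c := 3 ^ t - w)
          (by omega) (by omega) (by omega)
          (by
            have : (3 : ℤ) ^ t + x + (3 ^ t + y) + (3 ^ t - w) = 3 * 3 ^ t := by omega
            rw [this]; exact h3T)
        refine (PG.union A5 P ?_).congr ?_
        · intro z hz
          simp only [Set.mem_ofPred_eq] at hz ⊢
          omega
        · intro z
          simp only [Set.mem_ofPred_eq]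
          omega

/-- From the inductive predicate to partitions of finite sets of natural numbers. -/
theorem PG.toPartition {A : Set ℤ} (h : PG A) : ∀ B : Finset ℕ, (∀ z, z ∈ A ↔ ∃ b ∈ B, (b : ℤ) = z) →
    ∃ P : Finpartition B, ∀ S ∈ P.parts, S.card ≤ 3 ∧ ∃ j : ℕ, ∑ s ∈ S, s = 3 ^ j := by
  induction h with
  | empty =>
    intro B hB
    have : B = ∅ := by
      rw [Finset.eq_empty_iff_forall_notMem]
      intro b hb
      exact ((hB b).mpr ⟨b, hb, rfl⟩).elim
    subst this
    exact ⟨Finpartition.empty _, by simp⟩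
  | add A S _ hS hd ih =>
    intro B hB
    -- the part as a set of natural numbers
    let S' : Finset ℕ := B.filter (fun b => (b : ℤ) ∈ S)
    let B' : Finset ℕ := B.filter (fun b => (b : ℤ) ∉ S)
    have hS'image : S'.image (fun b : ℕ => (b : ℤ)) = S := by
      ext z
      simp only [S', Finset.mem_image, Finset.mem_filter]
      constructor
      · rintro ⟨b, ⟨_, hb⟩, rfl⟩
        exact hb
      · intro hz
        obtain ⟨b, hb, rfl⟩ := (hB z).mp (Or.inl hz)
        exact ⟨b, ⟨hb, hz⟩, rfl⟩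
    have hinj : Set.InjOn (fun b : ℕ => (b : ℤ)) (S' : Set ℕ) := fun a _ b _ hab => by
      simpa using hab
    have hcard : S'.card = S.card := by
      rw [← hS'image, Finset.card_image_of_injOn hinj]
    have hsum : ((∑ s ∈ S', s : ℕ) : ℤ) = ∑ z ∈ S, z := by
      rw [← hS'image, Finset.sum_image (by simp)]
      push_cast
      rfl
    obtain ⟨P, hP⟩ := ih B' (by
      intro z
      constructor
      · intro hz
        obtain ⟨b, hb, rfl⟩ := (hB z).mp (Or.inr hz)
        exact ⟨b, by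
          simp only [B', Finset.mem_filter]
          exact ⟨hb, fun hc => hd _ hc hz⟩, rfl⟩
      · rintro ⟨b, hb, rfl⟩
        simp only [B', Finset.mem_filter] at hb
        rcases (hB b).mpr ⟨b, hb.1, rfl⟩ with h1 | h1
        · exact absurd h1 hb.2
        · exact h1)
    have hne : S' ≠ ⊥ := by
      intro hc
      have : S'.card = 0 := by rw [hc]; rfl
      rw [hcard] at this
      exact hS.1.ne_empty (Finset.card_eq_zero.mp this)
    have hdis : Disjoint B' S' := by
      rw [Finset.disjoint_left]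
      intro b hb hb'
      simp only [B', S', Finset.mem_filter] at hb hb'
      exact hb.2 hb'.2
    have hsup : B' ⊔ S' = B := by
      ext b
      simp only [B', S', Finset.sup_eq_union, Finset.mem_union, Finset.mem_filter]
      by_cases hc : (b : ℤ) ∈ S <;> simp [hc]
    refine ⟨P.extend hne hdis hsup, ?_⟩
    intro R hR
    simp only [Finpartition.extend_parts, Finset.mem_insert] at hR
    rcases hR with rfl | hR
    · refine ⟨by rw [hcard]; exact hS.2.1, ?_⟩
      obtain ⟨j, hj⟩ := hS.2.2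
      refine ⟨j, ?_⟩
      have : ((∑ s ∈ S', s : ℕ) : ℤ) = ((3 ^ j : ℕ) : ℤ) := by rw [hsum, hj]; push_cast; rfl
      exact_mod_cast this
    · exact hP R hR

/-- For every positive integer `n`, the set `[n] = {1, ..., n}` has a 3-good partition: a
partition into nonempty parts of at most three elements each, the sum of each part being a power
`3 ^ j`, `j ≥ 0`, of three. -/
theorem result (n : ℕ) (_hn : 0 < n) :
    ∃ P : Finpartition (Finset.Icc 1 n), ∀ S ∈ P.parts,
      1 ≤ S.card ∧ S.card ≤ 3 ∧ ∃ j : ℕ, ∑ s ∈ S, s = 3 ^ j := by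
  obtain ⟨P, hP⟩ := (main n).1.toPartition (Finset.Icc 1 n) (by
    intro z
    simp only [Set.mem_ofPred_eq, Finset.mem_Icc]
    constructor
    · intro hz
      obtain ⟨b, rfl⟩ := Int.eq_ofNat_of_zero_le (show 0 ≤ z by omega)
      exact ⟨b, by omega, rfl⟩
    · rintro ⟨b, hb, rfl⟩
      omega)
  exact ⟨P, fun S hS => ⟨Finset.card_pos.mpr (P.nonempty_of_mem_parts hS), hP S hS⟩⟩

end Pool.Agent.Results.MP_b44c8b_co.ThreeGood
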